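import Pool.Agent.Run7.h87.SS.Main

set_option autoImplicit false

/-!
# MP_93ce36_al: partial semisymmetric quasigroups of order `n` embed in all orders `t ≥ 3 n + 47`

Proof. Define the missing squares as idempotents and add four to six dummy points; some dummy pairs
`u, v` get the products `u u = v`, so that the number of idempotents has the right residue modulo 3.
Extend the structure on these `n'` points as long as possible; then the digraph of the undefined
products has no directed triangle, so it has at most `n' ^ 2 / 2` arcs. Add `c = 3 k` points with a
partial Mendelsohn triple system built from difference triples in `ZMod k × ZMod 3`; the arcs that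
it leaves free are sorted (by exchanges along alternating paths) into partial matchings of prescribed
sizes, one for each of the `n'` points, such that afterwards every point of the union has the same
number `z` of undefined products. The undefined products are the arcs of a `z`-regular digraph, which
is a union of `z` permutations (König); they are assigned to `z` further points, on which
`x y = - x - y` is used.
-/

namespace Pool.Agent.Results.MP_93ce36_al.ThreeTimesPlusConstant

/-- Every incomplete quasigroup on `n` points closed under `x(yx) = y` (if `yx = z` is defined then
`xz = y` is defined) embeds, for every `t ≥ 3n + 47`, into a quasigroup of order `t` satisfying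
`x(yx) = y`. -/
theorem result :
    ∀ (n : ℕ) (P : Fin n → Fin n → Option (Fin n)),
      (∀ a b b' c, P a b = some c → P a b' = some c → b = b') →
      (∀ a a' b c, P a b = some c → P a' b = some c → a = a') →
      (∀ x y z, P y x = some z → P x z = some y) →
      ∀ t : ℕ, 3 * n + 47 ≤ t →
        ∃ (f : Fin t → Fin t → Fin t) (φ : Fin n → Fin t),
          (∀ a, Function.Bijective (f a)) ∧
          (∀ b, Function.Bijective (fun a => f a b)) ∧
          (∀ x y, f x (f y x) = y) ∧
          Function.Injective φ ∧
          ∀ a b c, P a b = some c → f (φ a) (φ b) = φ c :=
  fun n P _ _ hP t ht => Pool.Agent.Run7.h87.SS.embed_main n P hP t ht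

end Pool.Agent.Results.MP_93ce36_al.ThreeTimesPlusConstant
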